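import Mathlib
import Pool.Agent.H474_CA.Main

/-!
# Periods of additive cellular automata: a criterion of Artin type for a strict inequality

Let `p ≥ 3` be a prime and let `s = q^(k + 1) ≥ 7` be a power of a prime `q` with `q ≡ 1` modulo
`p - 1`. If `p` generates the group of units modulo `s`, then the largest period of an element
`a + b x` of `F_p[x]/(x^s - 1)` is smaller than the bound `p^m - 1`, where `m` is the order of `p`
modulo `s`.
For every odd prime `p < 200` this happens for infinitely many `s`.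
-/

set_option autoImplicit false

namespace Pool.Agent.Results.MP_146b98_nt.ArtinCriterion

open Pool.Agent.H474_CA

/-- for each odd prime below `200` a suitable prime `q` -/
def pairs : List (ℕ × ℕ) :=
  [(3, 7), (5, 17), (7, 13), (11, 31), (13, 37), (17, 97), (19, 37), (23, 89), (29, 113),
    (31, 61), (37, 109), (41, 281), (43, 127), (47, 461), (53, 157), (59, 233), (61, 1741),
    (67, 859), (71, 281), (73, 577), (79, 1093), (83, 739), (89, 353), (97, 2017), (101,
    401), (103, 1021), (107, 743), (109, 1297), (113, 449), (127, 883), (131, 911), (137,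
    953), (139, 1657), (149, 593), (151, 5701), (157, 937), (163, 1459), (167, 4483), (173,
    1033), (179, 4451), (181, 541), (191, 761), (193, 1153), (197, 2549), (199, 4951)]

theorem chk_pairs : pairs.all (fun c => chk c.1 c.2) = true := by decide +kernel

theorem mem_pairs (p : ℕ) (hp : p.Prime) (h3 : 3 ≤ p) (h : p < 200) : ∃ q, (p, q) ∈ pairs := by
  have h1 : ∀ p < 200, 3 ≤ p → (∃ c ∈ pairs, c.1 = p) ∨ ∃ d < 15, 2 ≤ d ∧ d < p ∧ p % d = 0 := by
    decide +kernel
  rcases h1 p h h3 with ⟨c, hc, rfl⟩ | ⟨d, -, hd2, hdp, hmod⟩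
  · exact ⟨c.2, hc⟩
  · exfalso
    rcases (Nat.dvd_prime hp).1 (Nat.dvd_of_mod_eq_zero hmod) with h2 | h2
    · omega
    · omega

theorem result :
    (∀ p q k : ℕ, p.Prime → q.Prime → 3 ≤ p → 7 ≤ q ^ (k + 1) → (p - 1) ∣ (q - 1) →
      orderOf (p : ZMod (q ^ (k + 1))) = (q ^ (k + 1)).totient →
      maxPeriod p (q ^ (k + 1)) < ub p (q ^ (k + 1))) ∧
    (∀ p : ℕ, p.Prime → 3 ≤ p → p < 200 →
      {s : ℕ | 1 ≤ s ∧ maxPeriod p s < ub p s}.Infinite) := by
  constructor
  · intro p q k hp hq hp3 h7 hd ho
    have : Fact p.Prime := ⟨hp⟩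
    exact main hq hp3 h7 hd ho
  · intro p hp h3 h200
    have : Fact p.Prime := ⟨hp⟩
    obtain ⟨q, hq⟩ := mem_pairs p hp h3 h200
    have h1 := List.all_eq_true.1 chk_pairs (p, q) hq
    have h2 := fun k => of_chk (p := p) h3 q h1 k
    have hq1 : 1 < q := (h2 0).1
    refine Set.infinite_of_injective_forall_mem (f := fun k : ℕ => q ^ (k + 1)) ?_ ?_
    · intro i j hij
      have := Nat.pow_right_injective hq1 hij
      omega
    · intro k
      exact ⟨Nat.one_le_pow _ _ (by omega), (h2 k).2⟩

end Pool.Agent.Results.MP_146b98_nt.ArtinCriterion
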